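import Mathlib
set_option autoImplicit false

/-! Growth bounds of strongly continuous groups. -/

namespace Pool.Agent.V11202.GP
open Filter Topology MeasureTheory Set

variable {E : Type*} [NormedAddCommGroup E] [NormedSpace ℂ E]

theorem local_bound [CompleteSpace E] {T : ℝ → E →L[ℂ] E} (hc : ∀ x, Continuous fun t => T t x)
    (R : ℝ) : ∃ M : ℝ, 1 ≤ M ∧ ∀ t, |t| ≤ R → ‖T t‖ ≤ M := by
  have h : ∀ x, ∃ C, ∀ i : Icc (-R) R, ‖T (i : ℝ) x‖ ≤ C := by
    intro x
    obtain ⟨C, hC⟩ := (isCompact_Icc (a := -R) (b := R)).exists_bound_of_continuousOn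
      (hc x).continuousOn
    exact ⟨C, fun i => hC i i.2⟩
  obtain ⟨C, hC⟩ := banach_steinhaus (g := fun i : Icc (-R) R => T (i : ℝ)) h
  refine ⟨max C 1, le_max_right _ _, fun t ht => ?_⟩
  exact (hC ⟨t, abs_le.mp ht⟩).trans (le_max_left _ _)

theorem norm_pos' [Nontrivial E] {T : ℝ → E →L[ℂ] E} (h0 : T 0 = 1)
    (ha : ∀ s t, T (s + t) = T s * T t) (t : ℝ) : 0 < ‖T t‖ := by
  rw [norm_pos_iff]
  intro h
  have h1 := ha t (-t)
  rw [add_neg_cancel, h0, h, zero_mul] at h1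
  exact one_ne_zero h1

theorem norm_nat {T : ℝ → E →L[ℂ] E} (h0 : T 0 = 1)
    (ha : ∀ s t, T (s + t) = T s * T t) (t : ℝ) (n : ℕ) : ‖T (n * t)‖ ≤ ‖T t‖ ^ n := by
  have h : T (n * t) = T t ^ n := by
    induction n with
    | zero => simp [h0]
    | succ n ih => rw [Nat.cast_succ, add_mul, one_mul, ha, ih, pow_succ]
  rw [h]
  rcases Nat.eq_zero_or_pos n with rfl | hn
  · simp only [pow_zero]
    exact ContinuousLinearMap.norm_id_le
  · exact norm_pow_le' _ hn

theorem growth [CompleteSpace E] [Nontrivial E] {T : ℝ → E →L[ℂ] E} (h0 : T 0 = 1)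
    (ha : ∀ s t, T (s + t) = T s * T t) (hc : ∀ x, Continuous fun t => T t x) :
    ∃ ω : ℝ, Tendsto (fun t => Real.log ‖T t‖ / t) atTop (𝓝 ω) ∧
      ∀ t, 0 < t → ω ≤ Real.log ‖T t‖ / t := by
  have hp := norm_pos' h0 ha
  have hmul : ∀ s t, ‖T (s + t)‖ ≤ ‖T s‖ * ‖T t‖ := fun s t => by
    rw [ha]; exact norm_mul_le _ _
  have hlog : ∀ s t, Real.log ‖T (s + t)‖ ≤ Real.log ‖T s‖ + Real.log ‖T t‖ := fun s t => by
    rw [← Real.log_mul (hp s).ne' (hp t).ne']
    exact Real.log_le_log (hp _) (hmul s t)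
  have h1 : (0 : ℝ) ≤ Real.log ‖T 0‖ := by
    rw [h0]
    have : ‖(1 : E →L[ℂ] E)‖ = 1 := ContinuousLinearMap.norm_id
    rw [this, Real.log_one]
  set u : ℕ → ℝ := fun n => Real.log ‖T n‖ with hu
  have hsub : Subadditive u := by
    intro m n
    simp only [hu]
    push_cast
    exact hlog _ _
  have hlow : ∀ n : ℕ, -(n * Real.log ‖T (-1)‖) ≤ u n := by
    intro n
    have e1 : 0 ≤ Real.log ‖T n‖ + Real.log ‖T (-n)‖ := by
      have := hlog n (-n)
      rw [add_neg_cancel] at this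
      linarith
    have e2 : Real.log ‖T (-n)‖ ≤ n * Real.log ‖T (-1)‖ := by
      have e3 := norm_nat h0 ha (-1) n
      rw [mul_neg_one] at e3
      have e4 := Real.log_le_log (hp _) e3
      rwa [Real.log_pow] at e4
    simp only [hu]
    linarith
  have hbdd : BddBelow (range fun n : ℕ => u n / n) := by
    refine ⟨-|Real.log ‖T (-1)‖|, ?_⟩
    rintro _ ⟨n, rfl⟩
    rcases Nat.eq_zero_or_pos n with rfl | hn
    · simp
    · have hn' : (0 : ℝ) < n := by exact_mod_cast hn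
      show _ ≤ u n / n
      rw [le_div_iff₀ hn']
      have := hlow n
      have h2 := le_abs_self (Real.log ‖T (-1)‖)
      nlinarith
  have hlim := hsub.tendsto_lim hbdd
  obtain ⟨M, hM1, hM⟩ := local_bound hc 1
  have hClog : ∀ s, |s| ≤ 1 → Real.log ‖T s‖ ≤ Real.log M := fun s hs =>
    Real.log_le_log (hp _) (hM s hs)
  have hmain : Tendsto (fun t => Real.log ‖T t‖ / t) atTop (𝓝 hsub.lim) := by
    have a1 : Tendsto (fun t : ℝ => u ⌊t⌋₊ / (⌊t⌋₊ : ℝ)) atTop (𝓝 hsub.lim) :=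
      hlim.comp tendsto_nat_floor_atTop
    have a2 : Tendsto (fun t : ℝ => (⌊t⌋₊ : ℝ) / t) atTop (𝓝 1) := tendsto_nat_floor_div_atTop
    have a3 : Tendsto (fun t : ℝ => u ⌊t⌋₊ / (⌊t⌋₊ : ℝ) * ((⌊t⌋₊ : ℝ) / t)) atTop
        (𝓝 (hsub.lim * 1)) := a1.mul a2
    rw [mul_one] at a3
    have a4 : Tendsto (fun t : ℝ => (Real.log ‖T t‖ - u ⌊t⌋₊) / t) atTop (𝓝 0) := by
      have b1 : Tendsto (fun t : ℝ => Real.log M / t) atTop (𝓝 0) :=
        tendsto_const_nhds.div_atTop tendsto_id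
      refine squeeze_zero_norm' ?_ b1
      filter_upwards [eventually_ge_atTop (1 : ℝ)] with t ht
      have ht0 : 0 < t := by linarith
      rw [Real.norm_eq_abs, abs_div, abs_of_pos ht0]
      have f1 : (⌊t⌋₊ : ℝ) ≤ t := Nat.floor_le ht0.le
      have f2 : t < ⌊t⌋₊ + 1 := Nat.lt_floor_add_one t
      have g1 := hlog (⌊t⌋₊) (t - ⌊t⌋₊)
      rw [add_sub_cancel] at g1
      have g2 := hlog t (⌊t⌋₊ - t)
      rw [add_sub_cancel] at g2
      have g3 := hClog (t - ⌊t⌋₊) (by rw [abs_le]; constructor <;> linarith)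
      have g4 := hClog (⌊t⌋₊ - t) (by rw [abs_le]; constructor <;> linarith)
      have : |Real.log ‖T t‖ - u ⌊t⌋₊| ≤ Real.log M := by
        rw [abs_le]
        constructor
        · simp only [hu]; linarith
        · simp only [hu]; linarith
      gcongr
    have a5 := a3.add a4
    rw [add_zero] at a5
    refine a5.congr' ?_
    filter_upwards [eventually_ge_atTop (1 : ℝ)] with t ht
    have ht0 : 0 < t := by linarith
    have f3 : (0 : ℝ) < ⌊t⌋₊ := by
      have := Nat.floor_pos.mpr ht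
      exact_mod_cast this
    field_simp
    ring
  refine ⟨hsub.lim, hmain, fun t ht => ?_⟩
  have b1 : Tendsto (fun n : ℕ => (n : ℝ) * t) atTop atTop :=
    tendsto_natCast_atTop_atTop.atTop_mul_const ht
  have b2 := hmain.comp b1
  refine le_of_tendsto b2 ?_
  filter_upwards [eventually_gt_atTop 0] with n hn
  have hn' : (0 : ℝ) < n := by exact_mod_cast hn
  show Real.log ‖T (n * t)‖ / (n * t) ≤ _
  have e4 := Real.log_le_log (hp _) (norm_nat h0 ha t n)
  rw [Real.log_pow] at e4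
  rw [div_le_div_iff₀ (by positivity) ht]
  nlinarith

theorem exp_bound [CompleteSpace E] [Nontrivial E] {T : ℝ → E →L[ℂ] E} (h0 : T 0 = 1)
    (ha : ∀ s t, T (s + t) = T s * T t) (hc : ∀ x, Continuous fun t => T t x) {ω : ℝ}
    (hω : Tendsto (fun t => Real.log ‖T t‖ / t) atTop (𝓝 ω)) {w : ℝ} (hw : ω < w) :
    ∃ M : ℝ, 0 < M ∧ ∀ t, 0 ≤ t → ‖T t‖ ≤ M * Real.exp (w * t) := by
  have hp := norm_pos' h0 ha
  have h1 := hω.eventually (gt_mem_nhds hw)
  obtain ⟨t0, ht0⟩ := eventually_atTop.mp (h1.and (eventually_gt_atTop 0))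
  obtain ⟨M, hM1, hM⟩ := local_bound hc (|t0|)
  refine ⟨M * Real.exp (|w| * |t0|), by positivity, fun t ht => ?_⟩
  rcases le_total t0 t with h | h
  · obtain ⟨h2, h3⟩ := ht0 t h
    rw [div_lt_iff₀ h3] at h2
    have h4 : ‖T t‖ ≤ Real.exp (w * t) := by
      rw [← Real.log_le_iff_le_exp (hp t)]
      exact h2.le
    have h5 : 1 ≤ M * Real.exp (|w| * |t0|) := by
      have : 1 ≤ Real.exp (|w| * |t0|) := Real.one_le_exp (by positivity)
      nlinarith
    have := Real.exp_pos (w * t)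
    nlinarith
  · have h2 : |t| ≤ |t0| := by
      rw [abs_of_nonneg ht]
      exact h.trans (le_abs_self _)
    have h3 := hM t h2
    have h4 : 1 ≤ Real.exp (|w| * |t0|) * Real.exp (w * t) := by
      rw [← Real.exp_add]
      apply Real.one_le_exp
      have e1 : -(|w| * |t|) ≤ w * t := by
        rw [← abs_mul]; exact neg_abs_le _
      have e2 : |w| * |t| ≤ |w| * |t0| := by gcongr
      linarith
    calc ‖T t‖ ≤ M * 1 := by linarith
      _ ≤ M * (Real.exp (|w| * |t0|) * Real.exp (w * t)) := by gcongr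
      _ = _ := by ring

end Pool.Agent.V11202.GP
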