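import Pool.Agent.V11202.GP.A
set_option autoImplicit false

/-! Laplace transforms of strongly continuous groups are resolvents. -/

namespace Pool.Agent.V11202.GP
open Filter Topology MeasureTheory Set

variable {E : Type*} [NormedAddCommGroup E] [NormedSpace ℂ E]

/-- the Laplace transform -/
noncomputable def lap (T : ℝ → E →L[ℂ] E) (z : ℂ) (x : E) : E :=
  ∫ t in Ioi (0 : ℝ), Complex.exp (-(z * t)) • T t x

theorem cont_g {T : ℝ → E →L[ℂ] E} (hc : ∀ x, Continuous fun t => T t x) (z : ℂ) (x : E) :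
    Continuous fun t : ℝ => Complex.exp (-(z * t)) • T t x := by
  have h := hc x
  have h2 : Continuous fun t : ℝ => Complex.exp (-(z * t)) := by fun_prop
  exact h2.smul h

theorem norm_g (T : ℝ → E →L[ℂ] E) {M w : ℝ} (hM : ∀ t, 0 ≤ t → ‖T t‖ ≤ M * Real.exp (w * t))
    (z : ℂ) (x : E) (t : ℝ) (ht : 0 ≤ t) :
    ‖Complex.exp (-(z * t)) • T t x‖ ≤ (M * ‖x‖) * Real.exp (-(z.re - w) * t) := by
  rw [norm_smul, Complex.norm_exp]
  have h1 : (-(z * (t : ℂ))).re = -(z.re * t) := by simp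
  rw [h1]
  have h2 : ‖T t x‖ ≤ M * Real.exp (w * t) * ‖x‖ :=
    (T t).le_of_opNorm_le (hM t ht) x
  calc Real.exp (-(z.re * t)) * ‖T t x‖ ≤ Real.exp (-(z.re * t)) * (M * Real.exp (w * t) * ‖x‖) := by
        gcongr
    _ = (M * ‖x‖) * (Real.exp (-(z.re * t)) * Real.exp (w * t)) := by ring
    _ = _ := by rw [← Real.exp_add]; congr 2; ring

theorem int_g {T : ℝ → E →L[ℂ] E} (hc : ∀ x, Continuous fun t => T t x) {M w : ℝ}
    (hM : ∀ t, 0 ≤ t → ‖T t‖ ≤ M * Real.exp (w * t)) {z : ℂ} (hz : w < z.re) (x : E) :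
    IntegrableOn (fun t : ℝ => Complex.exp (-(z * t)) • T t x) (Ioi 0) := by
  have h1 : IntegrableOn (fun t : ℝ => (M * ‖x‖) * Real.exp (-(z.re - w) * t)) (Ioi 0) :=
    (exp_neg_integrableOn_Ioi 0 (by linarith)).const_mul _
  refine h1.mono' (cont_g hc z x).aestronglyMeasurable ?_
  refine (ae_restrict_iff' measurableSet_Ioi).mpr (ae_of_all _ fun t ht => ?_)
  exact norm_g T hM z x t (le_of_lt ht)

theorem lap_norm {T : ℝ → E →L[ℂ] E} {M w : ℝ}
    (hM : ∀ t, 0 ≤ t → ‖T t‖ ≤ M * Real.exp (w * t)) {z : ℂ} (hz : w < z.re) (x : E) :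
    ‖lap T z x‖ ≤ (M / (z.re - w)) * ‖x‖ := by
  have h1 : IntegrableOn (fun t : ℝ => (M * ‖x‖) * Real.exp (-(z.re - w) * t)) (Ioi 0) :=
    (exp_neg_integrableOn_Ioi 0 (by linarith)).const_mul _
  have h2 : ‖lap T z x‖ ≤ ∫ t in Ioi (0 : ℝ), (M * ‖x‖) * Real.exp (-(z.re - w) * t) := by
    refine norm_integral_le_of_norm_le h1 ?_
    refine (ae_restrict_iff' measurableSet_Ioi).mpr (ae_of_all _ fun t ht => ?_)
    exact norm_g T hM z x t (le_of_lt ht)
  rw [integral_const_mul, integral_exp_mul_Ioi (by linarith)] at h2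
  simp only [mul_zero, Real.exp_zero] at h2
  refine h2.trans (le_of_eq ?_)
  have : z.re - w ≠ 0 := by linarith
  field_simp

theorem lap_add {T : ℝ → E →L[ℂ] E} (hc : ∀ x, Continuous fun t => T t x) {M w : ℝ}
    (hM : ∀ t, 0 ≤ t → ‖T t‖ ≤ M * Real.exp (w * t)) {z : ℂ} (hz : w < z.re) (x y : E) :
    lap T z (x + y) = lap T z x + lap T z y := by
  unfold lap
  rw [← integral_add (int_g hc hM hz x) (int_g hc hM hz y)]
  congr 1
  ext t
  rw [map_add, smul_add]

theorem lap_smul {T : ℝ → E →L[ℂ] E} (z c : ℂ) (x : E) :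
    lap T z (c • x) = c • lap T z x := by
  unfold lap
  rw [← integral_smul]
  congr 1
  ext t
  rw [map_smul, smul_comm]

theorem exists_res {T : ℝ → E →L[ℂ] E} (hc : ∀ x, Continuous fun t => T t x) {M w : ℝ}
    (hM : ∀ t, 0 ≤ t → ‖T t‖ ≤ M * Real.exp (w * t)) {z : ℂ} (hz : w < z.re) :
    ∃ R : E →L[ℂ] E, ∀ x, R x = lap T z x :=
  ⟨LinearMap.mkContinuous
    { toFun := lap T z
      map_add' := lap_add hc hM hz
      map_smul' := lap_smul z } (M / (z.re - w)) (lap_norm hM hz), fun _ => rfl⟩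

theorem shift_Ioi (f : ℝ → E) (h : ℝ) :
    ∫ t in Ioi (0 : ℝ), f (h + t) = ∫ t in Ioi h, f t := by
  have h1 := (measurePreserving_add_left (volume : Measure ℝ) h).setIntegral_preimage_emb
    (measurableEmbedding_addLeft h) f (Ioi h)
  have h2 : (fun x => h + x) ⁻¹' Ioi h = Ioi 0 := by
    ext x; simp
  rw [h2] at h1
  exact h1

theorem lap_gen [CompleteSpace E] {T : ℝ → E →L[ℂ] E}
    (ha : ∀ s t, T (s + t) = T s * T t) (h0 : T 0 = 1) (hc : ∀ x, Continuous fun t => T t x)
    {M w : ℝ} (hM : ∀ t, 0 ≤ t → ‖T t‖ ≤ M * Real.exp (w * t)) {z : ℂ} (hz : w < z.re) (y : E) :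
    HasDerivAt (fun h : ℝ => T h (lap T z y)) (z • lap T z y - y) 0 := by
  set g : ℝ → E := fun t => Complex.exp (-(z * t)) • T t y with hg
  have hgc : Continuous g := cont_g hc z y
  have hgi : ∀ a, IntegrableOn g (Ioi a) := by
    intro a
    have h1 : Ioi a ⊆ Icc (min a 0) 0 ∪ Ioi 0 := by
      intro x hx
      rcases le_or_gt x 0 with h | h
      · left; exact ⟨(min_le_left _ _).trans (le_of_lt hx), h⟩
      · right; exact h
    exact ((hgc.integrableOn_Icc).union (int_g hc hM hz y)).mono_set h1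
  have key : ∀ h : ℝ, T h (lap T z y) =
      Complex.exp (z * h) • (lap T z y - ∫ t in (0 : ℝ)..h, g t) := by
    intro h
    have e1 : T h (lap T z y) = ∫ t in Ioi (0 : ℝ), T h (g t) :=
      ((T h).integral_comp_comm (int_g hc hM hz y)).symm
    rw [e1]
    have e2 : ∀ t : ℝ, T h (g t) = Complex.exp (z * h) • g (h + t) := by
      intro t
      simp only [hg]
      rw [map_smul, ha, smul_smul, ← Complex.exp_add]
      congr 2
      push_cast
      ring
    simp_rw [e2]
    rw [integral_smul, shift_Ioi g h]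
    congr 1
    have e3 := intervalIntegral.integral_Ioi_sub_Ioi' (hgi 0) (hgi h)
    rw [← e3]
    simp only [lap, hg]
    abel
  have e4 : (fun h : ℝ => T h (lap T z y)) =
      fun h : ℝ => Complex.exp (z * h) • (lap T z y - ∫ t in (0 : ℝ)..h, g t) := funext key
  rw [e4]
  have d1 : HasDerivAt (fun h : ℝ => Complex.exp (z * h)) (z) 0 := by
    have := ((Complex.ofRealCLM.hasDerivAt (x := (0 : ℝ))).const_mul z).cexp
    simpa using this
  have d2 : HasDerivAt (fun h : ℝ => ∫ t in (0 : ℝ)..h, g t) (g 0) 0 :=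
    intervalIntegral.integral_hasDerivAt_right (hgc.intervalIntegrable _ _)
      (hgc.stronglyMeasurableAtFilter _ _) hgc.continuousAt
  have d3 := d1.smul ((hasDerivAt_const (0 : ℝ) (lap T z y)).sub d2)
  have g0 : g 0 = y := by simp [hg, h0]
  convert! d3 using 1
  simp [g0]
  abel

theorem deriv_orbit {T : ℝ → E →L[ℂ] E} (ha : ∀ s t, T (s + t) = T s * T t) {x v : E}
    (h : HasDerivAt (fun t : ℝ => T t x) v 0) (t : ℝ) :
    HasDerivAt (fun s : ℝ => T s x) (T t v) t := by
  have h1 : (fun s : ℝ => T s x) = fun s : ℝ => T t (T (s - t) x) := by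
    ext s
    rw [← mul_apply_eq_comp, ← ha]
    congr 2
    ring
  rw [h1]
  have h2 : HasDerivAt (fun s : ℝ => T (s - t) x) v t := by
    have h4 : HasDerivAt (fun s : ℝ => T s x) v (t - t) := by rw [sub_self]; exact h
    exact h4.comp_sub_const t t
  have h5 := ((T t).restrictScalars ℝ).hasFDerivAt (x := T (t - t) x)
  have := h5.comp_hasDerivAt t h2
  exact this

theorem lap_left [CompleteSpace E] {T : ℝ → E →L[ℂ] E}
    (ha : ∀ s t, T (s + t) = T s * T t) (h0 : T 0 = 1) (hc : ∀ x, Continuous fun t => T t x)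
    {M w : ℝ} (hM : ∀ t, 0 ≤ t → ‖T t‖ ≤ M * Real.exp (w * t)) {z : ℂ} (hz : w < z.re) {x v : E}
    (h : HasDerivAt (fun t : ℝ => T t x) v 0) : lap T z (z • x - v) = x := by
  have d1 : ∀ t : ℝ, HasDerivAt (fun s : ℝ => Complex.exp (-(z * s)) • T s x)
      (Complex.exp (-(z * t)) • T t (v - z • x)) t := by
    intro t
    have e1 : HasDerivAt (fun s : ℝ => Complex.exp (-(z * s))) (-z * Complex.exp (-(z * t))) t := by
      have := (((Complex.ofRealCLM.hasDerivAt (x := t)).const_mul z).neg).cexp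
      convert! this using 1
      simp
      ring
    have e2 := e1.smul (deriv_orbit ha h t)
    convert! e2 using 1
    rw [map_sub, map_smul, smul_sub, smul_smul, sub_eq_add_neg, ← neg_smul]
    congr 2
    ring
  have d2 : Tendsto (fun s : ℝ => Complex.exp (-(z * s)) • T s x) atTop (𝓝 0) := by
    have e1 : Tendsto (fun s : ℝ => (M * ‖x‖) * Real.exp (-(z.re - w) * s)) atTop (𝓝 0) := by
      rw [← mul_zero (M * ‖x‖)]
      refine Tendsto.const_mul _ ?_
      refine Real.tendsto_exp_atBot.comp ?_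
      exact tendsto_id.const_mul_atTop_of_neg (by linarith)
    refine squeeze_zero_norm' ?_ e1
    filter_upwards [eventually_ge_atTop (0 : ℝ)] with t ht
    exact norm_g T hM z x t ht
  have d3 := integral_Ioi_of_hasDerivAt_of_tendsto' (a := (0 : ℝ)) (fun t _ => d1 t)
    (int_g hc hM hz (v - z • x)) d2
  have d4 : lap T z (v - z • x) = -x := by
    unfold lap
    rw [d3]
    simp [h0]
  have d5 : z • x - v = (-1 : ℂ) • (v - z • x) := by
    rw [neg_one_smul, neg_sub]
  rw [d5, lap_smul, d4]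
  simp

end Pool.Agent.V11202.GP
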