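import Pool.Agent.V11202.GP.B
set_option autoImplicit false

/-! Plancherel's theorem for Hilbert space valued functions on the line and Laplace transforms. -/

namespace Pool.Agent.V11202.GP
open Filter Topology MeasureTheory Set FourierTransform SchwartzMap
open scoped ContDiff ENNReal

variable {F : Type*} [NormedAddCommGroup F] [InnerProductSpace ℂ F] [CompleteSpace F]

theorem fourier_ae_eq (f : ℝ → F) (h1 : Integrable f) (h2 : MemLp f 2) :
    ((𝓕 (h2.toLp f) : Lp F 2 (volume : Measure ℝ)) : ℝ → F) =ᵐ[volume] 𝓕 f := by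
  have hcont : Continuous (𝓕 f) := by
    have := VectorFourier.fourierIntegral_continuous (L := innerₗ ℝ) Real.continuous_fourierChar
      continuous_inner h1
    exact this
  apply ae_eq_of_integral_contDiff_smul_eq
  · exact (Lp.memLp _).locallyIntegrable (by norm_num)
  · exact hcont.locallyIntegrable
  · intro g g_smooth g_cpt
    have hg₁ : HasCompactSupport (Complex.ofRealCLM ∘ g) := g_cpt.comp_left rfl
    have hg₂ : ContDiff ℝ ∞ (Complex.ofRealCLM ∘ g) := by fun_prop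
    set gS : 𝓢(ℝ, ℂ) := hg₁.toSchwartzMap hg₂ with hgS
    have hgx : ∀ x, gS x = (g x : ℂ) := fun x => rfl
    have e1 : ∫ x, g x • ((𝓕 (h2.toLp f) : Lp F 2 (volume : Measure ℝ)) : ℝ → F) x =
        ((𝓕 (h2.toLp f) : Lp F 2 (volume : Measure ℝ)) : 𝓢'(ℝ, F)) gS := by
      rw [Lp.toTemperedDistribution_apply]
      congr 1
    rw [e1, ← Lp.fourier_toTemperedDistribution_eq, TemperedDistribution.fourier_apply,
      Lp.toTemperedDistribution_apply]
    have e2 : ∫ x, (𝓕 gS) x • (h2.toLp f : ℝ → F) x = ∫ x, (𝓕 gS) x • f x := by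
      apply integral_congr_ae
      filter_upwards [h2.coeFn_toLp] with x hx
      rw [hx]
    rw [e2]
    have e3 := VectorFourier.integral_fourierIntegral_smul_eq_flip (L := innerₗ ℝ)
      Real.continuous_fourierChar continuous_inner gS.integrable h1 (μ := volume) (ν := volume)
    simp only [flip_innerₗ] at e3
    have e4 : ∫ x, (𝓕 gS) x • f x = ∫ x, gS x • (𝓕 f) x := by
      rw [SchwartzMap.fourier_coe]
      exact e3
    rw [e4]
    congr 1

theorem plancherel (f : ℝ → F) (h1 : Integrable f) (h2 : MemLp f 2) :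
    ∫⁻ ξ, ‖𝓕 f ξ‖ₑ ^ 2 = ∫⁻ x, ‖f x‖ₑ ^ 2 := by
  have hae := fourier_ae_eq f h1 h2
  have hmem : MemLp (𝓕 f) 2 := (memLp_congr_ae hae).mp (Lp.memLp _)
  have hn : ‖(𝓕 (h2.toLp f) : Lp F 2 (volume : Measure ℝ))‖ = ‖h2.toLp f‖ := Lp.norm_fourier_eq _
  have e1 : eLpNorm (𝓕 f) 2 volume = eLpNorm f 2 volume := by
    rw [← eLpNorm_congr_ae hae]
    have a1 := Lp.norm_def (𝓕 (h2.toLp f) : Lp F 2 (volume : Measure ℝ))
    have a2 := Lp.norm_def (h2.toLp f)
    rw [hn, a2] at a1
    have a3 : eLpNorm (h2.toLp f) 2 volume = eLpNorm f 2 volume := eLpNorm_congr_ae h2.coeFn_toLp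
    rw [← a3]
    exact ((ENNReal.toReal_eq_toReal_iff' (Lp.memLp _).eLpNorm_lt_top.ne (Lp.memLp _).eLpNorm_lt_top.ne).mp a1).symm
  have b1 := eLpNorm_nnreal_pow_eq_lintegral (f := 𝓕 f) (μ := (volume : Measure ℝ)) (p := 2) (by norm_num)
  have b2 := eLpNorm_nnreal_pow_eq_lintegral (f := f) (μ := (volume : Measure ℝ)) (p := 2) (by norm_num)
  have c1 : (((2 : NNReal) : ℝ≥0∞)) = 2 := by norm_num
  rw [c1] at b1 b2
  rw [e1, b2] at b1
  simp only [NNReal.coe_ofNat, ENNReal.rpow_ofNat] at b1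
  exact b1.symm

/-- the point `a + 2 π i ξ` -/
noncomputable def zz (a ξ : ℝ) : ℂ := (a : ℂ) + 2 * Real.pi * ξ * Complex.I

theorem zz_re (a ξ : ℝ) : (zz a ξ).re = a := by simp [zz]

theorem lap_planch {T : ℝ → F →L[ℂ] F} (hc : ∀ x, Continuous fun t => T t x) {M w : ℝ}
    (hM : ∀ t, 0 ≤ t → ‖T t‖ ≤ M * Real.exp (w * t)) {a : ℝ} (haw : w < a) (x : F) :
    ∫⁻ ξ, ‖lap T (zz a ξ) x‖ₑ ^ 2 =
      ∫⁻ t in Ioi (0 : ℝ), ‖Complex.exp (-((a : ℂ) * t)) • T t x‖ₑ ^ 2 := by
  have haw' : w < (a : ℂ).re := by simpa using haw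
  set g : ℝ → F := fun t => Complex.exp (-((a : ℂ) * t)) • T t x with hg
  have hgi : IntegrableOn g (Ioi 0) := int_g hc hM haw' x
  have h1 : Integrable ((Ioi (0 : ℝ)).indicator g) := hgi.integrable_indicator measurableSet_Ioi
  have hgc : Continuous g := cont_g hc a x
  have hb : ∀ t ∈ Ioi (0 : ℝ), ‖g t‖ ≤ |M * ‖x‖| := by
    intro t ht
    refine (norm_g T hM a x t (le_of_lt ht)).trans ?_
    have e1 : Real.exp (-((a : ℂ).re - w) * t) ≤ 1 := by
      rw [Real.exp_le_one_iff]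
      have : (0 : ℝ) < t := ht
      nlinarith
    have e2 := Real.exp_pos (-((a : ℂ).re - w) * t)
    have e3 := le_abs_self (M * ‖x‖)
    have e4 := abs_nonneg (M * ‖x‖)
    calc _ ≤ |M * ‖x‖| * Real.exp (-((a : ℂ).re - w) * t) := by gcongr
      _ ≤ |M * ‖x‖| * 1 := by gcongr
      _ = _ := mul_one _
  have h2 : MemLp ((Ioi (0 : ℝ)).indicator g) 2 := by
    rw [memLp_two_iff_integrable_sq_norm h1.aestronglyMeasurable]
    refine (h1.norm.const_mul |M * ‖x‖|).mono' (h1.aestronglyMeasurable.norm.pow 2) ?_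
    refine ae_of_all _ fun t => ?_
    rw [Real.norm_eq_abs, abs_of_nonneg (by positivity), pow_two]
    refine mul_le_mul_of_nonneg_right ?_ (norm_nonneg _)
    by_cases ht : t ∈ Ioi (0 : ℝ)
    · rw [indicator_of_mem ht]; exact hb t ht
    · rw [indicator_of_notMem ht, norm_zero]; positivity
  have h3 := plancherel _ h1 h2
  have e1 : ∀ ξ, 𝓕 ((Ioi (0 : ℝ)).indicator g) ξ = lap T (zz a ξ) x := by
    intro ξ
    rw [Real.fourier_real_eq_integral_exp_smul]
    unfold lap
    rw [← integral_indicator measurableSet_Ioi]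
    congr 1
    ext t
    by_cases ht : t ∈ Ioi (0 : ℝ)
    · rw [indicator_of_mem ht, indicator_of_mem ht]
      simp only [hg]
      rw [smul_smul, ← Complex.exp_add]
      congr 2
      simp only [zz]
      push_cast
      ring
    · rw [indicator_of_notMem ht, indicator_of_notMem ht, smul_zero]
  simp_rw [e1] at h3
  rw [h3, ← lintegral_indicator measurableSet_Ioi]
  congr 1
  ext t
  by_cases ht : t ∈ Ioi (0 : ℝ)
  · rw [indicator_of_mem ht, indicator_of_mem ht]
  · rw [indicator_of_notMem ht, indicator_of_notMem ht]; simp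

end Pool.Agent.V11202.GP
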