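import Pool.Agent.V11202.GP.C
set_option autoImplicit false

/-! The estimate of Gearhart and Pruess. -/

namespace Pool.Agent.V11202.GP
set_option linter.unusedSectionVars false
open Filter Topology MeasureTheory Set
open scoped ENNReal

variable {F : Type*} [NormedAddCommGroup F] [InnerProductSpace ℂ F] [CompleteSpace F]

theorem lap_res {T : ℝ → F →L[ℂ] F} (ha : ∀ s t, T (s + t) = T s * T t) (h0 : T 0 = 1)
    (hc : ∀ x, Continuous fun t => T t x) {M w : ℝ}
    (hM : ∀ t, 0 ≤ t → ‖T t‖ ≤ M * Real.exp (w * t)) {z z' : ℂ} (hz : w < z.re) (hz' : w < z'.re)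
    (x : F) : lap T z x = lap T z' x + (z' - z) • lap T z (lap T z' x) := by
  set y := lap T z' x with hy
  have h1 := lap_gen ha h0 hc hM hz' x
  rw [← hy] at h1
  have h2 := lap_left ha h0 hc hM hz h1
  have h3 : z • y - (z' • y - x) = x + (z - z') • y := by
    rw [sub_smul]; abel
  rw [h3, lap_add hc hM hz, lap_smul] at h2
  rw [← neg_sub z z', neg_smul]
  rw [← h2]
  have h4 : lap T z (lap T z x + (z - z') • lap T z y) = lap T z y := by rw [h2]
  rw [h4]
  abel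

/-- the weighted square integrals -/
noncomputable def JJ (T : ℝ → F →L[ℂ] F) (a : ℝ) (x : F) : ℝ≥0∞ :=
  ∫⁻ t in Ioi (0 : ℝ), ‖Complex.exp (-((a : ℂ) * t)) • T t x‖ₑ ^ 2

theorem JJ_w {T : ℝ → F →L[ℂ] F} {M w : ℝ} (hM : ∀ t, 0 ≤ t → ‖T t‖ ≤ M * Real.exp (w * t))
    {a : ℝ} (haw : w < a) : ∃ C : ℝ, 0 ≤ C ∧ ∀ x, JJ T a x ≤ ENNReal.ofReal (C * ‖x‖ ^ 2) := by
  refine ⟨M ^ 2 / (2 * (a - w)), div_nonneg (sq_nonneg _) (by linarith), fun x => ?_⟩
  have h1 : IntegrableOn (fun t : ℝ => (M * ‖x‖) ^ 2 * Real.exp (-(2 * (a - w)) * t)) (Ioi 0) :=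
    (exp_neg_integrableOn_Ioi 0 (by linarith)).const_mul _
  have h2 : JJ T a x ≤ ∫⁻ t in Ioi (0 : ℝ),
      ENNReal.ofReal ((M * ‖x‖) ^ 2 * Real.exp (-(2 * (a - w)) * t)) := by
    unfold JJ
    refine setLIntegral_mono' measurableSet_Ioi fun t ht => ?_
    have e1 := norm_g T hM a x t (le_of_lt ht)
    rw [Complex.ofReal_re] at e1
    have e2 : ‖Complex.exp (-((a : ℂ) * t)) • T t x‖ ^ 2 ≤
        (M * ‖x‖) ^ 2 * Real.exp (-(2 * (a - w)) * t) := by
      calc _ ≤ ((M * ‖x‖) * Real.exp (-(a - w) * t)) ^ 2 := by gcongr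
        _ = (M * ‖x‖) ^ 2 * (Real.exp (-(a - w) * t) * Real.exp (-(a - w) * t)) := by ring
        _ = _ := by rw [← Real.exp_add]; congr 2; ring
    rw [← ofReal_norm, ← ENNReal.ofReal_pow (norm_nonneg _)]
    exact ENNReal.ofReal_le_ofReal e2
  refine h2.trans (le_of_eq ?_)
  rw [← ofReal_integral_eq_lintegral_ofReal h1 (ae_of_all _ fun t => by positivity)]
  rw [integral_const_mul, integral_exp_mul_Ioi (by linarith)]
  congr 1
  have : a - w ≠ 0 := by linarith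
  simp only [mul_zero, Real.exp_zero]
  field_simp

theorem JJ_a {T : ℝ → F →L[ℂ] F} (ha : ∀ s t, T (s + t) = T s * T t) (h0 : T 0 = 1)
    (hc : ∀ x, Continuous fun t => T t x) {ω : ℝ}
    (hup : ∀ w, ω < w → ∃ M : ℝ, 0 < M ∧ ∀ t, 0 ≤ t → ‖T t‖ ≤ M * Real.exp (w * t))
    {δ K : ℝ} (hδ : 0 < δ) (hK0 : 0 ≤ K)
    (hK : ∀ a, ω < a → a ≤ ω + δ → ∀ ξ x, ‖lap T (zz a ξ) x‖ ≤ K * ‖x‖) :
    ∃ C : ℝ, 0 ≤ C ∧ ∀ a, ω < a → a ≤ ω + δ → ∀ x, JJ T a x ≤ ENNReal.ofReal (C * ‖x‖ ^ 2) := by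
  obtain ⟨M, _, hM⟩ := hup (ω + δ / 2) (by linarith)
  obtain ⟨C, hC0, hC⟩ := JJ_w hM (a := ω + δ) (by linarith)
  refine ⟨(1 + δ * K) ^ 2 * C, by positivity, fun a ha1 ha2 x => ?_⟩
  obtain ⟨M', _, hM'⟩ := hup ((ω + a) / 2) (by linarith)
  have e1 : JJ T a x = ∫⁻ ξ, ‖lap T (zz a ξ) x‖ₑ ^ 2 :=
    (lap_planch hc hM' (by linarith) x).symm
  have e2 : JJ T (ω + δ) x = ∫⁻ ξ, ‖lap T (zz (ω + δ) ξ) x‖ₑ ^ 2 :=
    (lap_planch hc hM (by linarith) x).symm
  have e3 : ∀ ξ, ‖lap T (zz a ξ) x‖ₑ ^ 2 ≤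
      ENNReal.ofReal ((1 + δ * K) ^ 2) * ‖lap T (zz (ω + δ) ξ) x‖ₑ ^ 2 := by
    intro ξ
    have f1 := lap_res ha h0 hc hM' (z := zz a ξ) (z' := zz (ω + δ) ξ)
      (by rw [zz_re]; linarith) (by rw [zz_re]; linarith) x
    have f2 : ‖zz (ω + δ) ξ - zz a ξ‖ ≤ δ := by
      have : zz (ω + δ) ξ - zz a ξ = ((ω + δ - a : ℝ) : ℂ) := by
        simp only [zz]; push_cast; ring
      rw [this, Complex.norm_real, Real.norm_eq_abs, abs_of_nonneg (by linarith)]
      linarith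
    have f3 : ‖lap T (zz a ξ) x‖ ≤ (1 + δ * K) * ‖lap T (zz (ω + δ) ξ) x‖ := by
      rw [f1]
      refine (norm_add_le _ _).trans ?_
      rw [norm_smul]
      have f4 := hK a ha1 ha2 ξ (lap T (zz (ω + δ) ξ) x)
      calc _ ≤ ‖lap T (zz (ω + δ) ξ) x‖ + δ * (K * ‖lap T (zz (ω + δ) ξ) x‖) := by gcongr
        _ = _ := by ring
    rw [← ofReal_norm, ← ofReal_norm, ← ENNReal.ofReal_pow (norm_nonneg _),
      ← ENNReal.ofReal_pow (norm_nonneg _), ← ENNReal.ofReal_mul (by positivity), ← mul_pow]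
    apply ENNReal.ofReal_le_ofReal
    gcongr
  calc JJ T a x ≤ ∫⁻ ξ, ENNReal.ofReal ((1 + δ * K) ^ 2) * ‖lap T (zz (ω + δ) ξ) x‖ₑ ^ 2 := by
        rw [e1]; exact lintegral_mono e3
    _ = ENNReal.ofReal ((1 + δ * K) ^ 2) * JJ T (ω + δ) x := by
        rw [e2, lintegral_const_mul' _ _ ENNReal.ofReal_ne_top]
    _ ≤ ENNReal.ofReal ((1 + δ * K) ^ 2) * ENNReal.ofReal (C * ‖x‖ ^ 2) := by
        gcongr
        exact hC x
    _ = _ := by
        rw [← ENNReal.ofReal_mul (by positivity)]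
        congr 1
        ring

/-- square integrals over bounded intervals -/
theorem int_bound {T : ℝ → F →L[ℂ] F} (hc : ∀ x, Continuous fun t => T t x) {ω : ℝ}
    {δ C : ℝ} (hδ : 0 < δ) (hC0 : 0 ≤ C)
    (hC : ∀ a, ω < a → a ≤ ω + δ → ∀ x, JJ T a x ≤ ENNReal.ofReal (C * ‖x‖ ^ 2))
    {τ : ℝ} (hτ : 0 < τ) (x : F) :
    ∫ t in (0 : ℝ)..τ, (Real.exp (-(ω * t)) * ‖T t x‖) ^ 2 ≤ Real.exp 2 * C * ‖x‖ ^ 2 := by
  set a := ω + min δ (1 / τ) with ha
  have hm : 0 < min δ (1 / τ) := lt_min hδ (by positivity)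
  have h1 := hC a (by linarith) (by have := min_le_left δ (1 / τ); linarith) x
  have hcont : Continuous fun t : ℝ => (Real.exp (-(a * t)) * ‖T t x‖) ^ 2 := by
    have := hc x
    fun_prop
  have hcont' : Continuous fun t : ℝ => (Real.exp (-(ω * t)) * ‖T t x‖) ^ 2 := by
    have := hc x
    fun_prop
  have h2 : ∫ t in (0 : ℝ)..τ, (Real.exp (-(a * t)) * ‖T t x‖) ^ 2 ≤ C * ‖x‖ ^ 2 := by
    rw [intervalIntegral.integral_of_le hτ.le]
    have e1 : ENNReal.ofReal (∫ t in Ioc 0 τ, (Real.exp (-(a * t)) * ‖T t x‖) ^ 2) ≤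
        ENNReal.ofReal (C * ‖x‖ ^ 2) := by
      rw [ofReal_integral_eq_lintegral_ofReal]
      · refine le_trans ?_ h1
        unfold JJ
        refine le_trans (le_of_eq ?_) (lintegral_mono_set (fun y hy => hy.1 : Ioc (0 : ℝ) τ ⊆ Ioi 0))
        congr 1
        ext t
        rw [← ofReal_norm, ← ENNReal.ofReal_pow (norm_nonneg _), norm_smul,
          Complex.norm_exp]
        congr 3
        simp
      · exact hcont.integrableOn_Ioc
      · exact ae_of_all _ fun t => by positivity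
    exact (ENNReal.ofReal_le_ofReal_iff (by positivity)).mp e1
  have h3 : ∫ t in (0 : ℝ)..τ, (Real.exp (-(ω * t)) * ‖T t x‖) ^ 2 ≤
      ∫ t in (0 : ℝ)..τ, Real.exp 2 * (Real.exp (-(a * t)) * ‖T t x‖) ^ 2 := by
    refine intervalIntegral.integral_mono_on hτ.le (hcont'.intervalIntegrable _ _)
      ((hcont.const_smul (Real.exp 2)).intervalIntegrable _ _) ?_
    intro t ht
    have e1 : Real.exp (-(ω * t)) ≤ Real.exp 1 * Real.exp (-(a * t)) := by
      rw [← Real.exp_add]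
      apply Real.exp_le_exp.mpr
      have e2 : min δ (1 / τ) * t ≤ 1 := by
        calc _ ≤ (1 / τ) * τ := by
              exact mul_le_mul (min_le_right _ _) ht.2 ht.1 (by positivity)
          _ = 1 := by field_simp
      rw [ha]
      nlinarith
    have e3 : Real.exp 2 = Real.exp 1 ^ 2 := by
      rw [← Real.exp_nat_mul]; norm_num
    rw [e3]
    calc (Real.exp (-(ω * t)) * ‖T t x‖) ^ 2 ≤ (Real.exp 1 * Real.exp (-(a * t)) * ‖T t x‖) ^ 2 := by
          gcongr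
      _ = _ := by ring
  rw [intervalIntegral.integral_const_mul] at h3
  have h4 := Real.exp_pos 2
  nlinarith

/-- Datko's argument and the conclusion -/
theorem gp [Nontrivial F] {T : ℝ → F →L[ℂ] F} (ha : ∀ s t, T (s + t) = T s * T t) (h0 : T 0 = 1)
    (hc : ∀ x, Continuous fun t => T t x) {ω : ℝ}
    (hup : ∀ w, ω < w → ∃ M : ℝ, 0 < M ∧ ∀ t, 0 ≤ t → ‖T t‖ ≤ M * Real.exp (w * t))
    (hlow : ∀ t, 0 < t → Real.exp (ω * t) ≤ ‖T t‖)
    {δ K : ℝ} (hδ : 0 < δ) (hK0 : 0 ≤ K)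
    (hK : ∀ a, ω < a → a ≤ ω + δ → ∀ ξ x, ‖lap T (zz a ξ) x‖ ≤ K * ‖x‖) : False := by
  obtain ⟨C1, hC10, hC1⟩ := JJ_a ha h0 hc hup hδ hK0 hK
  set C := Real.exp 2 * C1 with hCdef
  have hC0 : 0 ≤ C := by positivity
  set v : F → ℝ → ℝ := fun x t => Real.exp (-(ω * t)) * ‖T t x‖ with hv
  have hC : ∀ τ, 0 < τ → ∀ x, ∫ t in (0 : ℝ)..τ, (v x t) ^ 2 ≤ C * ‖x‖ ^ 2 := fun τ hτ x =>
    int_bound hc hδ hC10 hC1 hτ x
  have hvc : ∀ x, Continuous fun t => (v x t) ^ 2 := by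
    intro x
    have := hc x
    simp only [hv]
    fun_prop
  have hii : ∀ x a b, IntervalIntegrable (fun t => (v x t) ^ 2) volume a b := fun x a b =>
    (hvc x).intervalIntegrable _ _
  have hv0 : ∀ x t, 0 ≤ v x t := fun x t => by simp only [hv]; positivity
  -- local bound
  obtain ⟨M, hM1, hM⟩ := local_bound hc 1
  set N := Real.exp |ω| * M with hN
  have hN0 : 0 < N := by positivity
  have hN1 : 1 ≤ N := by
    have : 1 ≤ Real.exp |ω| := Real.one_le_exp (abs_nonneg _)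
    nlinarith
  have hstep : ∀ x s r, |s| ≤ 1 → v x (s + r) ≤ N * v x r := by
    intro x s r hs
    simp only [hv]
    rw [ha]
    have e1 : ‖(T s * T r) x‖ ≤ M * ‖T r x‖ := (T s).le_of_opNorm_le (hM s hs) (T r x)
    have e2 : Real.exp (-(ω * (s + r))) ≤ Real.exp |ω| * Real.exp (-(ω * r)) := by
      rw [← Real.exp_add]
      apply Real.exp_le_exp.mpr
      have : -(ω * s) ≤ |ω| := by
        have f1 : -(ω * s) ≤ |ω * s| := neg_le_abs _
        rw [abs_mul] at f1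
        have := abs_nonneg ω
        nlinarith
      linarith
    calc _ ≤ (Real.exp |ω| * Real.exp (-(ω * r))) * (M * ‖T r x‖) := by gcongr
      _ = _ := by ring
  set L := N ^ 2 * (1 + C) with hL
  have hL0 : 0 < L := by positivity
  have hbd : ∀ x t, 0 ≤ t → (v x t) ^ 2 ≤ L * ‖x‖ ^ 2 := by
    intro x t ht
    have hv00 : v x 0 = ‖x‖ := by simp [hv, h0]
    rcases le_or_gt t 1 with h | h
    · have e1 := hstep x t 0 (by rw [abs_of_nonneg ht]; exact h)
      rw [add_zero, hv00] at e1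
      calc (v x t) ^ 2 ≤ (N * ‖x‖) ^ 2 := by
            have := hv0 x t
            gcongr
        _ = N ^ 2 * 1 * ‖x‖ ^ 2 := by ring
        _ ≤ _ := by
            rw [hL]
            gcongr
            linarith
    · have e1 : ∀ r ∈ Icc (t - 1) t, (v x t) ^ 2 ≤ N ^ 2 * (v x r) ^ 2 := by
        intro r hr
        have := hstep x (t - r) r (by rw [abs_of_nonneg (by linarith [hr.2])]; linarith [hr.1])
        rw [sub_add_cancel] at this
        calc (v x t) ^ 2 ≤ (N * v x r) ^ 2 := by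
              have := hv0 x t
              gcongr
          _ = _ := by ring
      have e2 : ∫ r in (t - 1)..t, (v x t) ^ 2 ≤ ∫ r in (t - 1)..t, N ^ 2 * (v x r) ^ 2 :=
        intervalIntegral.integral_mono_on (by linarith) (by simp)
          ((hii x _ _).const_mul _) e1
      rw [intervalIntegral.integral_const, intervalIntegral.integral_const_mul] at e2
      have e3 : ∫ r in (t - 1)..t, (v x r) ^ 2 ≤ ∫ r in (0 : ℝ)..t, (v x r) ^ 2 := by
        rw [← intervalIntegral.integral_add_adjacent_intervals (hii x 0 (t - 1)) (hii x (t - 1) t)]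
        have : 0 ≤ ∫ r in (0 : ℝ)..(t - 1), (v x r) ^ 2 :=
          intervalIntegral.integral_nonneg (by linarith) fun r _ => sq_nonneg _
        linarith
      have e4 := hC t (by linarith) x
      simp only [sub_sub_cancel, one_smul] at e2
      have hN2 : 0 < N ^ 2 := by positivity
      have e5 : (v x t) ^ 2 ≤ N ^ 2 * (C * ‖x‖ ^ 2) := by
        refine e2.trans ?_
        gcongr
        exact e3.trans e4
      refine e5.trans ?_
      rw [hL]
      have : 0 ≤ ‖x‖ ^ 2 := by positivity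
      nlinarith
  have hbd2 : ∀ x t, 0 < t → t * (v x t) ^ 2 ≤ L * C * ‖x‖ ^ 2 := by
    intro x t ht
    have e1 : ∀ s ∈ Icc 0 t, (v x t) ^ 2 ≤ L * (v x s) ^ 2 := by
      intro s hs
      have f1 := hbd (T s x) (t - s) (by linarith [hs.2])
      have f2 : v x t = Real.exp (-(ω * s)) * v (T s x) (t - s) := by
        simp only [hv]
        rw [← mul_apply_eq_comp, ← ha, sub_add_cancel, ← mul_assoc, ← Real.exp_add]
        congr 2
        ring
      rw [f2]
      simp only [hv] at f1 ⊢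
      have : 0 < Real.exp (-(ω * s)) := Real.exp_pos _
      calc _ = Real.exp (-(ω * s)) ^ 2 * (Real.exp (-(ω * (t - s))) * ‖T (t - s) (T s x)‖) ^ 2 := by
            ring
        _ ≤ Real.exp (-(ω * s)) ^ 2 * (L * ‖T s x‖ ^ 2) := by gcongr
        _ = _ := by ring
    have e2 : ∫ r in (0 : ℝ)..t, (v x t) ^ 2 ≤ ∫ r in (0 : ℝ)..t, L * (v x r) ^ 2 :=
      intervalIntegral.integral_mono_on ht.le (by simp) ((hii x _ _).const_mul _) e1
    rw [intervalIntegral.integral_const, intervalIntegral.integral_const_mul, sub_zero,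
      smul_eq_mul] at e2
    exact e2.trans ((mul_le_mul_of_nonneg_left (hC t ht x) hL0.le).trans (le_of_eq (by ring)))
  set t := 4 * (L * C) + 1 with ht
  have ht0 : 0 < t := by positivity
  have hfin : ‖T t‖ ≤ Real.exp (ω * t) * (1 / 2) := by
    refine ContinuousLinearMap.opNorm_le_bound _ (by positivity) fun x => ?_
    have e1 := hbd2 x t ht0
    have e2 : (v x t) ^ 2 ≤ (1 / 2 * ‖x‖) ^ 2 := by
      have f1 : t * (v x t) ^ 2 ≤ t * (1 / 2 * ‖x‖) ^ 2 := by
        refine e1.trans ?_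
        have : 0 ≤ ‖x‖ ^ 2 := by positivity
        rw [ht]
        nlinarith
      exact le_of_mul_le_mul_left f1 ht0
    have e3 : v x t ≤ 1 / 2 * ‖x‖ := by
      exact (pow_le_pow_iff_left₀ (hv0 x t) (by positivity) two_ne_zero).mp e2
    have e4 : ‖T t x‖ = Real.exp (ω * t) * v x t := by
      simp only [hv]
      rw [← mul_assoc, ← Real.exp_add]
      simp
    rw [e4, mul_assoc]
    gcongr
  have := hlow t ht0
  have := Real.exp_pos (ω * t)
  linarith

end Pool.Agent.V11202.GP
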